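import Pool.Agent.U571.AP.Mid
import Pool.Agent.W12.TQ.Iter
import Pool.Agent.W347.TQ.Ode
import Pool.Agent.W52.TQ.Univ
import Pool.Agent.W775.TQ.Dtp
import Pool.Agent.W503.TQ.Est1
import Pool.Agent.W790.TQ.Est2
import Pool.Agent.W52.TQ.Loc
import Pool.Agent.W503.TQ.Uni

/-!
# One approximate solution excludes singularities

Let `u` be a Leray-Hopf solution of the Navier-Stokes equations in a bounded open set `Ω ⊆ ℝ³` (with
arbitrary boundary) on `[0,T]` with zero boundary values and admissible data. Suppose that there is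
one comparison field `v` on `[0,T]`, for example computed numerically, with the accuracy `η` in
the energy norm: `‖u(0) - v(0)‖₂ ≤ η` and the residual of `v` is at most `η` in `L²(0,T; V')`. If
the maximal instantaneous growth rate `Λ(t)` of the energy of perturbations of `v`,

  `-∫ w·(w·∇)v ≤ (1 - δ) ν ∫ |∇w|² + Λ(t) ∫ |w|²` for all `w ∈ V`,

satisfies `∫₀ᵀ Λ < (2/3) log (1/η) - M`, then `u` is a strong solution on `[0,T]`. The constant `M`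
depends only on `ν`, `T`, `δ` and on a bound `A` of the data, but neither on the domain nor on any
norm of `v` (except the bound `A` for its force and its initial time derivative).

So at a singularity the amplification `exp ∫ Λ` of all approximations of accuracy `η`, by whatever
method they are constructed, is at least `c η^(-2/3)`. Conversely a strong solution `u` passes the
test itself, `v = u`, for all small `η`.

Proof: (1) the speed `‖∂ₜv‖₂` and `‖u - v‖₂ / η` are bounded by `C exp ∫ Λ`; so `‖∇v‖₂² ≤ C exp ∫ Λ`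
and `∫ ‖∇(u - v)‖₂² ≤ C η² exp (2 ∫ Λ)`. (2) At the first singular time `τ`,
`‖∇u(t)‖₂² ≥ c (τ - t)^(-1/2)`, without regularity of the boundary. (3) The window
`τ - t ≤ c exp (-2 ∫ Λ)`.
-/

set_option autoImplicit false

open MeasureTheory Set
open scoped InnerProductSpace ENNReal ContDiff

namespace Pool.Agent.Results.MP_fd8964_an.ApproximationTest

open H772R2.NS.Pub Pool.Agent.W795.TQ
open Pool.Agent.W795.ES (stretch)

/-- For all `ν, T, A, δ > 0` there is a constant `M` with the following property. Let `u` be a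
Leray-Hopf solution on `[0,T]` in a bounded open set `Ω` with admissible data which are bounded by
`A`: `‖u(0)‖ ≤ A`, `‖∇u(0)‖ ≤ A`, `‖F(t)‖ ≤ A`, `∫ ‖F'‖² ≤ A²`. Let `v` be a strong solution on
`[0,T]` with the force `E`, `‖E(t)‖ ≤ A`, `∫ ‖E'‖² ≤ A²`, with `‖v(t) - v(0)‖ ≤ A t` for small `t`,
and close to `u` in the sense that `‖u(0) - v(0)‖ ≤ η`, `∫ ‖F - E‖² ≤ η²`, where `0 < η ≤ 1`. Let
`Λ ≥ 0` be an integrable function with
`-∫ w·(w·∇)v(t) ≤ (1 - δ) ν ‖∇w‖² + Λ(t) ‖w‖²` for all `w ∈ V` and almost all `t`. If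
`∫₀ᵀ Λ < (2/3) log (1/η) - M`, then `u` is a strong solution on `[0,T]`. -/
theorem result :
    ∀ ν T A δ : ℝ, 0 < ν → 0 < T → 0 < A → 0 < δ → ∃ M : ℝ,
    ∀ Ω : Set R3, IsOpen Ω → Bornology.IsBounded Ω →
    ∀ (F F' : ℝ → L2 Ω Mat), IsH1 T F F' → (∀ t ∈ Icc 0 T, ‖F t‖ ≤ A) →
    ∫ s in (0 : ℝ)..T, ‖F' s‖ ^ 2 ≤ A ^ 2 →
    ∀ (u : ℝ → L2 Ω R3) (G : ℝ → L2 Ω Mat), IsLerayHopf Ω ν T F u G →
    ∀ z0 : L2 Ω Mat, (u 0, z0) ∈ H1graph Ω → ‖u 0‖ ≤ A → ‖z0‖ ≤ A →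
    (∃ g : L2 Ω R3, ∀ φ, IsTest Ω φ → rhs ν (u 0) z0 (F 0) φ = ∫ x in Ω, ⟪g.fn x, φ x⟫_ℝ) →
    ∀ (η : ℝ) (E E' : ℝ → L2 Ω Mat) (v v' : ℝ → L2 Ω R3) (D D' : ℝ → L2 Ω Mat) (Λ : ℝ → ℝ),
    0 < η → η ≤ 1 → IsH1 T E E' → IsStrong Ω ν T E v v' D D' → (∀ t ∈ Icc 0 T, ‖E t‖ ≤ A) →
    ∫ s in (0 : ℝ)..T, ‖E' s‖ ^ 2 ≤ A ^ 2 → ‖u 0 - v 0‖ ≤ η →
    ∫ s in (0 : ℝ)..T, ‖F s - E s‖ ^ 2 ≤ η ^ 2 →
    (∃ t1 > 0, ∀ t ∈ Icc 0 t1, ‖v t - v 0‖ ≤ A * t) →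
    (∀ t, 0 ≤ Λ t) → IntervalIntegrable Λ volume 0 T →
    (∀ᵐ t ∂(volume.restrict (Ioc 0 T)), ∀ p ∈ H1graph Ω,
      -stretch (D t) p.1 ≤ (1 - δ) * ν * ‖p.2‖ ^ 2 + Λ t * ‖p.1‖ ^ 2) →
    ∫ s in (0 : ℝ)..T, Λ s < 2 / 3 * Real.log (1 / η) - M →
    ∃ u' G1 G', IsStrong Ω ν T F u u' G1 G' := by
  intro ν T A δ hν hT hA hδ
  obtain ⟨M, hM⟩ := Pool.Agent.U571.AP.crit_mid Pool.Agent.W12.TQ.proof
    Pool.Agent.W347.TQ.proof_ode Pool.Agent.W775.TQ.proof_dtp Pool.Agent.W503.TQ.proof_est1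
    Pool.Agent.W790.TQ.proof_est2 Pool.Agent.W52.TQ.proof_loc Pool.Agent.W503.TQ.proof_uni
    Pool.Agent.W52.TQ.proof_univ ν T A δ hν hT hA hδ
  refine ⟨M, ?_⟩
  intro Ω hΩ hb F F' hF hFA hF1A u G L z0 h0 hu0 hz0 hg η E E' v v' D D' Λ hη hη1 hE S hEA hE1A
    hinit hres hslow hΛ0 hΛi hform hlt
  obtain ⟨g, hg'⟩ := hg
  exact hM Ω hΩ hb F F' hF.memLp hF.prim hFA hF1A u G L.meas
    (by filter_upwards [L.grad] with t ht; exact H772R2.NS.Pub.mem_pub.mpr ht) L.gradL2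
    (fun φ hφ t ht => L.eqn φ ((H772R2.NS.Pub.isTest_iff φ).mpr hφ) t ht) L.energy z0 (H772R2.NS.Pub.mem_pub.mpr h0) hu0 hz0
    ⟨g, fun φ hφ => hg' φ ((H772R2.NS.Pub.isTest_iff φ).mpr hφ)⟩ η E E' v v' D D' Λ hη hη1 hE.memLp hE.prim
    (fun t ht => H772R2.NS.Pub.mem_pub.mpr (S.grad t ht))
    (by filter_upwards [S.gradDeriv] with t ht; exact H772R2.NS.Pub.mem_pub.mpr ht)
    S.bdd S.hu.memLp S.hG.memLp S.hu.prim S.hG.prim
    (fun φ hφ t ht => S.eqn φ ((H772R2.NS.Pub.isTest_iff φ).mpr hφ) t ht) hEA hE1A hinit hres hslow hΛ0 hΛi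
    (by filter_upwards [hform] with t ht; intro p hp; exact ht p (H772R2.NS.Pub.mem_pub.mp hp)) hlt

end Pool.Agent.Results.MP_fd8964_an.ApproximationTest
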