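import Pool.Agent.U481.NS.PubB

/-!
A comparison field and an increasing function exclude interior singular points of solutions of the
Navier-Stokes equations.
-/

set_option autoImplicit false

open MeasureTheory Set Metric
open Pool.Agent.U481.NS.Pub

namespace Pool.Agent.Results.MP_fd8964_an.ComparisonField

/-- Let `(u, p)` be a smooth solution of the Navier-Stokes equations with viscosity `ν > 0` in
`(0, T) × Ω` (bounded energy, finite dissipation, integrable pressure), and let the cube with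
centre `a` and side `2 R` be contained in `Ω`. Let `κ > 0`, and let `m t` be a threshold (in the
Kato class, uniformly in time). Suppose that for all `t` in `(T₀, T)` there are a continuous field
`W`, weakly free of divergence in the cube, with `|W| ≤ |ω|` in the cube, and a function `g`,
continuously differentiable and with Lipschitz constant one for the Euclidean distance, such that
`κ |ω| ≤ W · ∇g + m t` in the cube, where `ω` is the vorticity at the time `t`. Then `a` is not a
singular point: `u` is bounded near `(T, a)`. -/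
theorem result {ν T : ℝ} {Ω : Set V} {u : ℝ → V → V} {p : ℝ → V → ℝ} (hν : 0 < ν) (hT : 0 < T)
    (h : Solution ν T Ω u p) {a : V} {R : ℝ} (hR : 0 < R) (hΩ : closedBall a R ⊆ Ω)
    {T₀ : ℝ} (hT0 : 0 ≤ T₀) (hT₀ : T₀ < T) {m : ℝ → V → ℝ} (hm : Threshold T₀ T a R m) {κ : ℝ}
    (hκ : 0 < κ)
    (hc : ∀ t ∈ Ioo T₀ T, ∃ (W : V → V) (g : V → ℝ), Continuous W ∧
      (∀ F : V → ℝ, ContDiff ℝ 1 F → tsupport F ⊆ closedBall a R →
        ∫ y in closedBall a R, fderiv ℝ F y (W y) = 0) ∧
      (∀ y, ‖y - a‖ ≤ R → len (W y) ≤ len (curl (u t) y)) ∧ ContDiff ℝ 1 g ∧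
      (∀ y z, |g y - g z| ≤ len (y - z)) ∧
      ∀ y, ‖y - a‖ ≤ R → κ * len (curl (u t) y) ≤ fderiv ℝ g y (W y) + m t y) :
    ∃ B δ : ℝ, 0 < δ ∧ ∀ t ∈ Ioo 0 T, T - δ < t → ∀ x, ‖x - a‖ ≤ δ → ‖u t x‖ ≤ B := by
  obtain ⟨E, hD⟩ := h.dsl
  exact Pool.Agent.U481.VL.lyapD hν hT hD hT0 hT₀ hκ hR hΩ hm.cont hm.nonneg hm.kt hc

end Pool.Agent.Results.MP_fd8964_an.ComparisonField
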