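import Mathlib
import Pool.Agent.U401.DD.PubD
import Pool.Agent.U401.DD.CPX
import Pool.Agent.U401.DD.SIG
import Pool.Agent.U401.DD.BDC
import Pool.Agent.U401.DD.BDC2
import Pool.Agent.U401.DD.HB2
import Pool.Agent.U401.DD.ETA2
import Pool.Agent.U401.DD.KEP2
import Pool.Agent.U401.DD.RHS
import Pool.Agent.U401.DD.RHS2
import Pool.Agent.U401.DD.DER
import Pool.Agent.U401.DD.DRA2
import Pool.Agent.U401.DD.ENG
import Pool.Agent.U401.DD.GRW
import Pool.Agent.U401.DD.APA2
import Pool.Agent.U401.DD.ODE
import Pool.Agent.U401.DD.EXP
import Pool.Agent.U401.DD.DAT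
import Pool.Agent.U401.DD.DAT2
import Pool.Agent.U401.DD.LMI
import Pool.Agent.U401.DD.SEQ
import Pool.Agent.U401.DD.CNV
import Pool.Agent.U401.DD.LIM
import Pool.Agent.U401.DD.BES
import Pool.Agent.U401.DD.QUA
import Pool.Agent.U401.DD.TDA
import Pool.Agent.U401.DD.TDB
import Pool.Agent.U401.DD.TDC
import Pool.Agent.U401.DD.TDW
import Pool.Agent.U401.DD.TDF
import Pool.Agent.U401.DD.Prn2
import Pool.Agent.U401.DD.PRL2
import Pool.Agent.U401.DD.MIN
import Pool.Agent.U401.DD.BAS
import Pool.Agent.U401.DD.MMX
import Pool.Agent.U401.DD.TST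
import Pool.Agent.U401.DD.PWC
import Pool.Agent.U401.DD.CNT
import Pool.Agent.U401.DD.CMP

set_option autoImplicit false

/-!
# Navier-Stokes equations in bounded domains with a small random skew-adjoint term

Let `Ω` be any nonempty bounded open set of `ℝ³` (no regularity of the boundary). Zero boundary
values: the velocity is in `V`, the closure in `H¹` of the divergence free test fields (`H1graph` is
the set of the pairs `(v, ∇v)`, `v ∈ V`). We add to the Navier-Stokes equations (true nonlinearity,
true viscosity `ν`) a term `ε L u` with a skew-adjoint operator `L`: if `w₀, w₁, …` is an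
orthonormal basis of eigenfunctions of the Stokes operator with increasing eigenvalues `λ_n`
(`Eig`), then `L` rotates the plane spanned by `w_{2j}, w_{2j+1}` with angular frequency `ω_j`
(`rot`). The term does not change the energy law.

(0) Every nonempty bounded open set has such a basis.

(1) Let the frequencies have few resonances (`Good2`): with `G_j = 1 + λ_{2j} + λ_{2j+1}`,
`c G_j ^ 8 ≤ |ω_j|`, and only finitely many triples of modes, apart from the trivial resonances
`ω_j - ω_j ± ω_m`, have `|± ω_j ± ω_l ± ω_m| < max (G_j, G_l, G_m) ^ 6`. Then for all viscosities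
`ν > 0`, all amplitudes `ε ≠ 0` (arbitrarily small), all forces `f ∈ C([0, ∞); L²)` and all initial
data in `V` there is exactly one strong solution on `[0, ∞)` (continuous in `L²`, gradient bounded
in `L²` on bounded time intervals). If `f` is locally Lipschitz in time and the right hand side at
time `0` is in `L²`, the solution has the regularity which is asked in the problem:
`∂_t u ∈ L^∞(0, T; H) ∩ L²(0, T; V)` for all `T`.

(2) Let `ω_j = G_j ^ σ Z_j`, `σ > 21 / 2`, where the random variables `Z_j` are independent with
densities bounded by `D` (for instance uniform on `[1, 2]`; a fixed diagonal operator may be added,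
because `Z_j` may be replaced by `Z_j + b_j`). Almost surely the equations are globally well-posed
as in (1), for all `ν`, `ε`, `f` and all data at once.

Proof: the rotation invariant energy is `E = ∑ (λ_{2j} + λ_{2j+1}) |c_j|²` with complex coordinates
`c_j` of the planes. All triples of modes interact (there is no convolution structure). The triples
which are not resonant are removed by one normal form step; the frequencies grow so fast that the
correction is bounded by the kinetic energy and its remainder by `(1 + E)²`. The trivial resonances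
`c_j c̄_j c_m` lose `G_j ^ (7 / 4)` and not `G_j ^ 2`, by the Ladyzhenskaya inequality; for
`G_m ^ 3 < G_j` they are absorbed by the viscosity, the others are removed, because the divisor
`ω_m` is large. Then the inequality of Gronwall with the energy inequality; Galerkin approximation
and compactness. The eigenvalues are compared by crude Weyl bounds for arbitrary bounded open sets.

Parts by helpers 27, 55, 61, 88, 94, 95, 122, 129, 140, 187, 212, 251, 261, 263, 278, 312, 402, 416,
423, 446, 450, 451, 454, 461, 467, 571, 600, 603, 643, 689, 705, 784, 843, 875, 884, 894, 901, 908,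
941; the frame (`Pool/Agent/H772R2/NS`, `NSR`) is from the starting library.
-/

namespace Pool.Agent.Results.MP_fd8964_an.DirichletDispersion

open MeasureTheory ProbabilityTheory Set H772R2.NS.Pub Pool.Agent.U401.DD Pool.Agent.U401.DD.P

/-- The Navier-Stokes equations with zero boundary values in an arbitrary bounded open set, with an
arbitrarily small random skew-adjoint term, are almost surely globally well-posed for all data. -/
theorem result (Ω : Set R3) (hΩ : IsOpen Ω) (hb : Bornology.IsBounded Ω) (hne : Ω.Nonempty) :
    (∃ (w : ℕ → L2 Ω R3) (g : ℕ → L2 Ω Mat) (lam : ℕ → ℝ), Eig Ω w g lam) ∧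
    ∀ (w : ℕ → L2 Ω R3) (g : ℕ → L2 Ω Mat) (lam : ℕ → ℝ), Eig Ω w g lam →
      (∀ (om : ℕ → ℝ) (c : ℝ), Good2 lam om c → ∀ ν ε : ℝ, 0 < ν → ε ≠ 0 →
        WellP Ω w g om ν ε) ∧
      ∀ σ D : ℝ, 21 / 2 < σ → 0 ≤ D → ∀ (Θ : Type) [MeasurableSpace Θ] (P : Measure Θ)
        [IsProbabilityMeasure P] (Z : ℕ → Θ → ℝ), (∀ j, Measurable (Z j)) → iIndepFun Z P →
        DensB P Z D → ∀ᵐ θ ∂P, ∀ ν ε : ℝ, 0 < ν → ε ≠ 0 →
          WellP Ω w g (fun j => GG lam j ^ σ * Z j θ) ν ε :=
  main3 t_CPX t_SIG t_BDC t_BDC2 t_HB2 t_ETA2 t_KEP2 t_RHS t_RHS2 t_DER t_DRA2 t_ENG t_GRW t_APA2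
    t_ODE t_EXP t_DAT t_DAT2 t_LMI t_SEQ t_CNV t_LIM t_BES t_QUA t_TDA t_TDB t_TDC t_TDW t_TDF
    t_PRN2 t_PRL2 t_MIN t_BAS t_MMX t_TST t_PWC t_CNT t_CMP Ω hΩ hb hne

end Pool.Agent.Results.MP_fd8964_an.DirichletDispersion
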