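import Pool.Agent.U481.NS.PubB

/-!
The axes of the vorticity at the interior singular points of solutions of the Navier-Stokes
equations: they meet all the great circles, and all the angles occur, up to `ε`, at one time.
-/

set_option autoImplicit false

open MeasureTheory Set Metric
open Pool.Agent.U481.NS.Pub

namespace Pool.Agent.Results.MP_fd8964_an.VorticityAngles

/-- Let `(u, p)` be a smooth solution of the Navier-Stokes equations with viscosity `ν > 0` in
`(0, T) × Ω` (bounded energy, finite dissipation, integrable pressure), and let `a` be a singular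
point at the time `T`; the cube with centre `a` and side `2 R` is contained in `Ω`. Let `m t` be a
threshold (in the Kato class, uniformly in time). For every `ε > 0` and `T₀ < T` there is a time
`t` in `(T₀, T)` with the following properties. At the time `t` one has `|ω| > m t` somewhere in
the cube. For every unit vector `e`, every point `x` of the cube with `ω(x) ≠ 0` and every number
`0 ≤ c ≤ |cos ∠(e, ω(x))|` there is a point `y` of the cube with `ω(y) ≠ 0` and
`| |cos ∠(e, ω(y))| - c | < ε`.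

In particular (`c = 0`) for every unit vector `e` there is a point `y` with
`|e · ω(y)| < ε |ω(y)|`: no axis `e` is far from being orthogonal to all the vorticities; and
(`e = ω(x) / |ω(x)|`) all the angles between `0` and `π / 2` occur, up to `ε`, as angles between the
axes of `ω(x)` and `ω(y)`, for every `x` with `ω(x) ≠ 0`. -/
theorem result {ν T : ℝ} {Ω : Set V} {u : ℝ → V → V} {p : ℝ → V → ℝ} (hν : 0 < ν)
    (h : Solution ν T Ω u p) {a : V} {R : ℝ} (hR : 0 < R) (hΩ : closedBall a R ⊆ Ω)
    (hs : Singular T u a) {T₀ : ℝ} (hT0 : 0 ≤ T₀) (hT₀ : T₀ < T) {m : ℝ → V → ℝ}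
    (hm : Threshold T₀ T a R m) {ε : ℝ} (hε : 0 < ε) :
    ∃ t ∈ Ioo T₀ T, (∃ x, ‖x - a‖ ≤ R ∧ m t x < len (curl (u t) x)) ∧
      ∀ (e x : V) (c : ℝ), len e = 1 → ‖x - a‖ ≤ R → 0 < len (curl (u t) x) → 0 ≤ c →
        c * len (curl (u t) x) ≤ |e ⬝ᵥ curl (u t) x| →
        ∃ y, ‖y - a‖ ≤ R ∧ 0 < len (curl (u t) y) ∧
          |(|e ⬝ᵥ curl (u t) y| - c * len (curl (u t) y))| < ε * len (curl (u t) y) := by
  obtain ⟨E, hD⟩ := h.dsl
  obtain ⟨t, ht, hx, hall⟩ := Pool.Agent.U481.VL.angK hν hD hs hT0 hT₀ hε hR hΩ hm.cont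
    hm.nonneg hm.kt
  refine ⟨t, ht, hx, fun e x c he => hall e x c ?_⟩
  have h1 : √(e ⬝ᵥ e) = 1 := he
  have h2 : 0 ≤ e ⬝ᵥ e := Finset.sum_nonneg fun i _ => mul_self_nonneg _
  calc e ⬝ᵥ e = √(e ⬝ᵥ e) ^ 2 := (Real.sq_sqrt h2).symm
    _ = 1 := by rw [h1, one_pow]

end Pool.Agent.Results.MP_fd8964_an.VorticityAngles
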